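import Pool.Agent.H114.RS.Final7f

/-!
# Monochromatic arithmetic progressions in the Rudin–Shapiro sequence

For every `d ≥ 23` we have `A_r (d) ≤ (d + 7) / 2`, with equality if and only if `d = 2 ^ k - 1` for
some odd `k ≥ 5`.
-/

set_option autoImplicit false

namespace Pool.Agent.Results.MP_7fcbce_co.HalfBound

/-- `e_11 (n)`: the number of (possibly overlapping) occurrences of the block `11` in the binary
expansion of `n`, i.e. the number of pairs of adjacent binary digits of `n` which are both `1`. -/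
def e11 (n : ℕ) : ℕ := ((Nat.digits 2 n).zip (Nat.digits 2 n).tail).count (1, 1)

/-- The Rudin–Shapiro sequence `r_n = e_11 (n) mod 2`. -/
def rs (n : ℕ) : ℕ := e11 n % 2

/-- The `l` terms `r_n, r_{n+d}, …, r_{n+(l-1)d}` are equal. -/
def Mono (n d l : ℕ) : Prop := ∀ j < l, rs (n + j * d) = rs n

/-- `A_r (n, d)`: the largest number of terms of a monochromatic progression of difference `d`
starting at `n` (in `ℕ ∪ {∞}`). -/
noncomputable def lenAt (n d : ℕ) : ℕ∞ := ⨆ (l : ℕ) (_ : Mono n d l), (l : ℕ∞)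

/-- `A_r (d) = sup_n A_r (n, d)` (in `ℕ ∪ {∞}`). -/
noncomputable def maxLen (d : ℕ) : ℕ∞ := ⨆ n : ℕ, lenAt n d

lemma mono_iff (n d l : ℕ) : Mono n d l ↔ Pool.Agent.H114.RS.Mono n d l := by
  unfold Mono Pool.Agent.H114.RS.Mono
  exact forall₂_congr fun j _ => Pool.Agent.H114.RS.mod_eq_iff_rb _ _

lemma maxLen_le {d D : ℕ} (h : ∀ n, ¬ Pool.Agent.H114.RS.Mono n d (D + 1)) :
    maxLen d ≤ (D : ℕ∞) := by
  refine iSup_le fun n => iSup₂_le fun l hl => ?_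
  rw [mono_iff] at hl
  by_contra hcon
  rw [Nat.cast_le] at hcon
  exact h n (hl.le (by omega))

lemma le_maxLen {n d l : ℕ} (h : Pool.Agent.H114.RS.Mono n d l) : (l : ℕ∞) ≤ maxLen d := by
  rw [← mono_iff] at h
  have h4 : (l : ℕ∞) ≤ lenAt n d :=
    le_iSup₂ (f := fun (l : ℕ) (_ : Mono n d l) => (l : ℕ∞)) l h
  exact h4.trans (le_iSup (fun n => lenAt n d) n)

/-- **Question 1.** -/
theorem result (d : ℕ) (hd : 23 ≤ d) :
    2 * maxLen d ≤ d + 7 ∧
    (2 * maxLen d = d + 7 ↔ ∃ k : ℕ, 5 ≤ k ∧ Odd k ∧ d = 2 ^ k - 1) := by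
  by_cases hx : Pool.Agent.H114.RS.Exc d
  · obtain ⟨k, k5, ko, rfl⟩ := id hx
    obtain ⟨n, l, hl, hM⟩ := Pool.Agent.H114.RS.exc_lower k5 ko
    have hpos : 0 < 2 ^ k := by positivity
    have h1 : (l : ℕ∞) ≤ maxLen (2 ^ k - 1) := le_maxLen hM
    have h2 : maxLen (2 ^ k - 1) ≤ (l : ℕ∞) :=
      maxLen_le fun n => Pool.Agent.H114.RS.exc_upper k5 ko (by omega)
    have h3 : maxLen (2 ^ k - 1) = (l : ℕ∞) := le_antisymm h2 h1
    have h4 : 2 * maxLen (2 ^ k - 1) = ((2 ^ k - 1 : ℕ) : ℕ∞) + 7 := by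
      rw [h3]
      exact_mod_cast hl
    exact ⟨h4.le, fun _ => ⟨k, k5, Nat.odd_iff.2 ko, rfl⟩, fun _ => h4⟩
  · have h1 : maxLen d ≤ (((d + 6) / 2 : ℕ) : ℕ∞) :=
      maxLen_le fun n => Pool.Agent.H114.RS.nonexc d hd hx _ (by omega) n
    have h2 : 2 * maxLen d < (d : ℕ∞) + 7 := by
      have h5 : 2 * maxLen d ≤ 2 * (((d + 6) / 2 : ℕ) : ℕ∞) := by gcongr
      refine lt_of_le_of_lt h5 ?_
      have h6 : 2 * ((d + 6) / 2) < d + 7 := by omega
      exact_mod_cast h6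
    refine ⟨h2.le, fun h => absurd h h2.ne, ?_⟩
    rintro ⟨k, k5, ko, e⟩
    exact absurd ⟨k, k5, Nat.odd_iff.1 ko, e⟩ hx

end Pool.Agent.Results.MP_7fcbce_co.HalfBound
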